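import Pool.Agent.K4H42.ICJ

/-! A 2-AUS Banach space, complemented in its bidual, whose bidual quotient is reflexive and
2-AUSable, and which fails the 2-interlaced concentration inequality. -/

namespace Pool.Agent.Results.MP_a21e0e_an.Counterexample

open Pool.Agent.K4H42.IC

theorem result :
    ∃ (X : Type) (_ : NormedAddCommGroup X) (_ : NormedSpace ℝ X) (_ : CompleteSpace X),
      IsAUS 2 X ∧ (canon X).ClosedComplemented ∧ IsReflexiveSpace (BidualQuotient X) ∧
        IsAUSable 2 (BidualQuotient X) ∧ ¬ InterlacedConcentration 2 X :=
  ⟨XT, inferInstance, inferInstance, inferInstance, aus_XT, complemented, quot_reflexive,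
    quot_ausable, not_conc⟩

end Pool.Agent.Results.MP_a21e0e_an.Counterexample
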